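import Pool.Agent.Lib.TG_h51.FracV

/-!
# Residues modulo a prime of height one and residues of its valuation ring
-/

namespace Pool.Agent.TG51

open Ideal MvPolynomial

universe u v w

variable {k : Type w} [Field k]

theorem IndMod.of_comap {R S : Type*} [CommRing R] [CommRing S] [Algebra k R] [Algebra k S]
    [Algebra R S] [IsScalarTower k R S] {E : Ideal S} {ι : Type*} {t : ι → R}
    (h : IndMod k (E.comap (algebraMap R S)) t) : IndMod k E (fun i => algebraMap R S (t i)) := by
  intro f hf
  apply h f
  rw [Ideal.mem_comap]
  have e : algebraMap R S (aeval t f) = aeval (fun i => algebraMap R S (t i)) f := by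
    have : (aeval (fun i => algebraMap R S (t i)) : MvPolynomial ι k →ₐ[k] S) =
        (IsScalarTower.toAlgHom k R S).comp (aeval t) := by
      ext i
      simp
    rw [this]
    rfl
  rw [e]
  exact hf

section
variable {A : Type u} {K : Type v} [CommRing A] [IsDomain A] [Field K]
  [Algebra k A] [Algebra k K] [Algebra A K] [IsScalarTower k A K] [IsFractionRing A K]

theorem IndMod.indV_valP [IsNoetherianRing A] [IsIntegrallyClosed A] {P : Ideal A} [P.IsPrime]
    (h : P.height = 1) {ι : Type*} {t : ι → A} (ht : IndMod k P t) :
    IndV k (valP K P h) (fun i => algebraMap A K (t i)) := by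
  intro f hf
  have e : algebraMap A K (aeval t f) = aeval (fun i => algebraMap A K (t i)) f := by
    have : (aeval (fun i => algebraMap A K (t i)) : MvPolynomial ι k →ₐ[k] K) =
        (IsScalarTower.toAlgHom k A K).comp (aeval t) := by
      ext i
      simp
    rw [this]
    rfl
  rw [← e]
  have h1 : aeval t f ∉ P := fun h1 => hf (ht f h1)
  have h2 := fun h3 => h1 ((valuation_lt_one_iff (K := K) h (aeval t f)).1 h3)
  exact le_antisymm ((ValuationSubring.valuation_le_one_iff _ _).2 (algebraMap_mem_valP h _))
    (not_lt.1 h2)

/-- Everything together for `R ⊆ A ⊆ K`, `A` normal of finite type and integral over `R`, and a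
prime `P` of height one of `A`: there are `m` elements of `R` whose residues in `A_P` are
independent (`m + 1 ≤ trdeg k A`). -/
theorem exists_indV_valP {R : Type u} [CommRing R] [Algebra k R] [Algebra R A] [IsScalarTower k R A]
    [Algebra.IsIntegral R A] [Algebra.FiniteType k A] [IsNoetherianRing A] [IsIntegrallyClosed A]
    (P : Ideal A) [P.IsPrime] (h : P.height = 1) (m : ℕ)
    (hm : ((m + 1 : ℕ) : Cardinal.{u}) ≤ Algebra.trdeg k A) :
    ∃ t : Fin m → R, IndV k (valP K P h) (fun i => algebraMap A K (algebraMap R A (t i))) := by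
  obtain ⟨t, ht⟩ := exists_indMod (k := k) P h m hm
  obtain ⟨t', ht'⟩ := exists_indMod_comap (R := R) P ht
  exact ⟨t', ht'.of_comap.indV_valP h⟩

end

end Pool.Agent.TG51
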