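import Pool.Agent.Lib.TG_h81.Proj

/-!
# PROJ toolbox (T5): local degrees and embeddings

`N / F` finite Galois, `j : M → N` an `F`-embedding, `D ≤ Gal(N / F)`.
* `relIndex_fixing_eq_ncard` : `[D : D ∩ Gal(N / j M)]` is the number of the different `σ ∘ j`, `σ ∈ D`.
* `lDeg_iff_ncard` : `LDeg` in terms of embeddings.
* `LDeg.ncard_orbit_le` : orbits of elements of `M`.
* `LDeg.relIndex_of_comap` : the form with valuation rings of `M` (`F ⊆ M ⊆ N`).
-/

set_option autoImplicit false

namespace Pool.Agent.TG

universe u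

section Emb

variable {F M N : Type*} [Field F] [Field M] [Field N] [Algebra F M] [Algebra F N]

/-- Gal(N / F) acts on the embeddings of `M` into `N`. -/
@[reducible] def embAct (F M N : Type*) [Field F] [Field M] [Field N] [Algebra F M] [Algebra F N] :
    MulAction (N ≃ₐ[F] N) (M →ₐ[F] N) where
  smul σ f := (σ : N →ₐ[F] N).comp f
  one_smul f := by
    ext x
    rfl
  mul_smul σ τ f := by
    ext x
    rfl

/-- `[D : D ∩ Gal(N / j M)]` is the number of the different `σ ∘ j`, `σ ∈ D`. -/
theorem relIndex_fixing_eq_ncard [FiniteDimensional F N] (j : M →ₐ[F] N)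
    (D : Subgroup (N ≃ₐ[F] N)) :
    j.fieldRange.fixingSubgroup.relIndex D =
      (Set.range fun σ : D => ((σ : N ≃ₐ[F] N) : N →ₐ[F] N).comp j).ncard := by
  classical
  let _ : MulAction (N ≃ₐ[F] N) (M →ₐ[F] N) := embAct F M N
  have h1 := ncard_orbit D j
  have h2 : MulAction.stabilizer (N ≃ₐ[F] N) j = j.fieldRange.fixingSubgroup := by
    ext σ
    rw [MulAction.mem_stabilizer_iff, IntermediateField.mem_fixingSubgroup_iff]
    constructor
    · rintro h _ ⟨x, rfl⟩
      exact DFunLike.congr_fun h x
    · intro h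
      apply AlgHom.ext
      intro x
      exact h (j x) ⟨x, rfl⟩
  rw [h2] at h1
  rw [← h1]
  rfl

end Emb

section LDeg

variable {k F : Type u} [Field k] [Field F] [Algebra k F]

/-- `LDeg` in terms of the embeddings `σ ∘ j`. -/
theorem lDeg_iff_ncard (M : Type u) [Field M] [Algebra F M] (v₀ : ValuationSubring F)
    (R : Subalgebra k F) (d : ℕ) :
    LDeg M v₀ R d ↔ ∀ (N : Type u) [Field N] [Algebra k N] [Algebra F N] [IsScalarTower k F N]
      [FiniteDimensional F N] [IsGalois F N] (j : M →ₐ[F] N) (W : ValuationSubring N),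
      W.comap (algebraMap F N) = v₀ →
      (Set.range fun σ : stab W R => ((σ : N ≃ₐ[F] N) : N →ₐ[F] N).comp j).ncard ≤ d := by
  constructor
  · intro h N _ _ _ _ _ _ j W hW
    rw [← relIndex_fixing_eq_ncard]
    exact h N j W hW
  · intro h N _ _ _ _ _ _ j W hW
    rw [relIndex_fixing_eq_ncard]
    exact h N j W hW

variable {M : Type u} [Field M] [Algebra F M] {v₀ : ValuationSubring F} {R : Subalgebra k F}
  {d : ℕ}

/-- Local degrees bound the orbits of the elements of `M`. -/
theorem LDeg.ncard_orbit_le (h : LDeg M v₀ R d) (N : Type u) [Field N] [Algebra k N]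
    [Algebra F N] [IsScalarTower k F N] [FiniteDimensional F N] [IsGalois F N] (j : M →ₐ[F] N)
    (W : ValuationSubring N) (hW : W.comap (algebraMap F N) = v₀) (θ : M) :
    (MulAction.orbit (stab W R) (j θ)).ncard ≤ d := by
  classical
  refine le_trans ?_ (h N j W hW)
  rw [ncard_orbit]
  refine Subgroup.relIndex_le_of_le_left ?_ (relIndex_ne_zero_of_finite _ _)
  intro σ hσ
  rw [MulAction.mem_stabilizer_iff]
  exact (IntermediateField.mem_fixingSubgroup_iff _ _).1 hσ _ ⟨θ, rfl⟩

/-- Subgroups of the stabiliser. -/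
theorem LDeg.relIndex_le_of_le (h : LDeg M v₀ R d) (N : Type u) [Field N] [Algebra k N]
    [Algebra F N] [IsScalarTower k F N] [FiniteDimensional F N] [IsGalois F N] (j : M →ₐ[F] N)
    (W : ValuationSubring N) (hW : W.comap (algebraMap F N) = v₀) (D : Subgroup (N ≃ₐ[F] N))
    (hD : D ≤ stab W R) : j.fieldRange.fixingSubgroup.relIndex D ≤ d := by
  refine le_trans ?_ (h N j W hW)
  exact Subgroup.relIndex_le_of_le_right hD (relIndex_ne_zero_of_finite _ _)

/-- `Gal(N / M)` as the group of the `F`-automorphisms of `N` which fix `M`. -/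
theorem mem_fixing_toAlgHom {F M N : Type*} [Field F] [Field M] [Field N] [Algebra F M]
    [Algebra F N] [Algebra M N] [IsScalarTower F M N] (σ : N ≃ₐ[F] N) :
    σ ∈ (IsScalarTower.toAlgHom F M N).fieldRange.fixingSubgroup ↔
      ∀ x : M, σ (algebraMap M N x) = algebraMap M N x := by
  rw [IntermediateField.mem_fixingSubgroup_iff]
  constructor
  · intro h x
    exact h _ ⟨x, rfl⟩
  · rintro h _ ⟨x, rfl⟩
    exact h x

/-- The form with a valuation ring of `M`. -/
theorem LDeg.relIndex_of_comap [Algebra k M] [IsScalarTower k F M] (V : ValuationSubring M)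
    (h : LDeg M (V.comap (algebraMap F M)) R d) (N : Type u) [Field N] [Algebra k N]
    [Algebra F N] [Algebra M N] [IsScalarTower k F N] [IsScalarTower F M N]
    [FiniteDimensional F N] [IsGalois F N] (W : ValuationSubring N)
    (hW : W.comap (algebraMap M N) = V) :
    (IsScalarTower.toAlgHom F M N).fieldRange.fixingSubgroup.relIndex (stab W R) ≤ d := by
  refine h N (IsScalarTower.toAlgHom F M N) W ?_
  rw [← hW]
  ext x
  change algebraMap F N x ∈ W ↔ algebraMap M N (algebraMap F M x) ∈ W
  rw [← IsScalarTower.algebraMap_apply]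

end LDeg

section ZD

variable {k F M : Type u} [Field k] [Field F] [Field M] [Algebra k F] [Algebra k M] [Algebra F M]
  [IsScalarTower k F M]

/-- Zero-dimensional valuation rings restrict to zero-dimensional valuation rings. -/
theorem ZDim.comap' {V : ValuationSubring M} (hV : ZDim k V) :
    ZDim k (V.comap (algebraMap F M)) where
  ov := fun c => by
    change algebraMap F M (algebraMap k F c) ∈ V
    rw [← IsScalarTower.algebraMap_apply]
    exact hV.ov c
  res := fun x hx => by
    obtain ⟨c, hc⟩ := hV.res (algebraMap F M x) hx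
    refine ⟨c, ?_⟩
    rw [comap_lt_one, map_sub, ← IsScalarTower.algebraMap_apply]
    exact hc

end ZD

section Proj

variable {k K : Type u} [Field k] [Field K] [Algebra k K] {m : ℕ} {A₀ : Subalgebra k K} {d : ℕ}
  {b : Fin m → K} {z : K} {f : Polynomial (LB k b)} {C : Finset K}

/-- (H2) for a zero-dimensional valuation ring `V` of `K` and a finite Galois extension `N` of
`K₀ = k(b, z)` containing `K`. -/
theorem Proj.deg_V (h : Proj A₀ d b z f C) {V : ValuationSubring K} (hV : ZDim k V)
    (N : Type u) [Field N] [Algebra k N] [Algebra K N] [IsScalarTower k K N]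
    [FiniteDimensional (KB k b z) N] [IsGalois (KB k b z) N] (W : ValuationSubring N)
    (hW : W.comap (algebraMap K N) = V) :
    (IsScalarTower.toAlgHom (KB k b z) K N).fieldRange.fixingSubgroup.relIndex
      (stab W (RV (V.comap (algebraMap (KB k b z) K)) (PP k b z))) ≤ d :=
  LDeg.relIndex_of_comap (k := k) V (h.deg _ hV.comap') N W hW

/-- (H2) as a bound for the number of the embeddings `σ ∘ j`. -/
theorem Proj.ncard_emb (h : Proj A₀ d b z f C) {v₀ : ValuationSubring (KB k b z)}
    (hv : ZDim k v₀) (N : Type u) [Field N] [Algebra k N] [Algebra (KB k b z) N]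
    [IsScalarTower k (KB k b z) N] [FiniteDimensional (KB k b z) N] [IsGalois (KB k b z) N]
    (j : K →ₐ[KB k b z] N) (W : ValuationSubring N)
    (hW : W.comap (algebraMap (KB k b z) N) = v₀) :
    (Set.range fun σ : stab W (RV v₀ (PP k b z)) =>
      ((σ : N ≃ₐ[KB k b z] N) : N →ₐ[KB k b z] N).comp j).ncard ≤ d :=
  (lDeg_iff_ncard K v₀ _ d).1 (h.deg v₀ hv) N j W hW

/-- The orbits of the elements of `K` under the stabilisers have at most `d` elements. -/
theorem Proj.ncard_orbit_le (h : Proj A₀ d b z f C) {v₀ : ValuationSubring (KB k b z)}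
    (hv : ZDim k v₀) (N : Type u) [Field N] [Algebra k N] [Algebra (KB k b z) N]
    [IsScalarTower k (KB k b z) N] [FiniteDimensional (KB k b z) N] [IsGalois (KB k b z) N]
    (j : K →ₐ[KB k b z] N) (W : ValuationSubring N)
    (hW : W.comap (algebraMap (KB k b z) N) = v₀) (θ : K) :
    (MulAction.orbit (stab W (RV v₀ (PP k b z))) (j θ)).ncard ≤ d :=
  (h.deg v₀ hv).ncard_orbit_le N j W hW θ

end Proj

end Pool.Agent.TG
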