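import Pool.Agent.Lib.TG_h51.Div

/-!
# Divisorial valuations and fractions

* `frac_of_indV` : `A ⊆ V ≠ K` normal noetherian with fraction field `K`, residues of fractions
  `a_i / b_i` independent (`n - 1` of them): every element of `V` is a fraction `a / b` with
  `V.valuation b = 1`.
* `exists_indMod_comap` : descent of independent residues to a subring over which `S` is integral.
* `deriv_mem_of_frac` : derivations of `A` preserve `V`.
-/

namespace Pool.Agent.TG51

open Ideal MvPolynomial

universe u v w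

section Desc

variable {k : Type w} [Field k]

theorem IndMod.le_trdeg {A : Type u} [CommRing A] [Algebra k A] {P : Ideal A} {m : ℕ}
    {t : Fin m → A} (h : IndMod k P t) [P.IsPrime] : (m : Cardinal.{u}) ≤ Algebra.trdeg k (A ⧸ P) := by
  rw [indMod_iff] at h
  have h1 := h.lift_cardinalMk_le_trdeg
  rw [Cardinal.mk_fintype, Fintype.card_fin, Cardinal.lift_natCast, ← Cardinal.lift_natCast.{0, u} m,
    Cardinal.lift_le] at h1
  exact h1

theorem exists_indMod_of_le_trdeg {A : Type u} [CommRing A] [Algebra k A] (P : Ideal A)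
    [P.IsPrime] (m : ℕ) (h : (m : Cardinal.{u}) ≤ Algebra.trdeg k (A ⧸ P)) :
    ∃ t : Fin m → A, IndMod k P t := by
  classical
  obtain ⟨s, hs⟩ := exists_isTranscendenceBasis k (A ⧸ P)
  have h1 := hs.cardinalMk_eq_trdeg
  rw [← h1] at h
  have h2 : Cardinal.lift.{u} (Cardinal.mk (Fin m)) ≤ Cardinal.lift.{0} (Cardinal.mk s) := by
    rw [Cardinal.mk_fintype, Fintype.card_fin, Cardinal.lift_natCast, Cardinal.lift_uzero]
    simpa using h
  obtain ⟨e⟩ := Cardinal.lift_mk_le'.1 h2
  have h3 : AlgebraicIndependent k (fun i : Fin m => ((e i : s) : A ⧸ P)) :=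
    hs.1.comp e e.injective
  choose t ht using fun i : Fin m => Ideal.Quotient.mk_surjective ((e i : s) : A ⧸ P)
  refine ⟨t, (indMod_iff P t).2 ?_⟩
  have e1 : (fun i => Ideal.Quotient.mk P (t i)) = fun i : Fin m => ((e i : s) : A ⧸ P) :=
    funext ht
  rw [e1]
  exact h3

/-- (b) Independent residues descend along an integral extension. -/
theorem exists_indMod_comap {R S : Type u} [CommRing R] [CommRing S] [Algebra k R] [Algebra k S]
    [Algebra R S] [IsScalarTower k R S] [Algebra.IsIntegral R S] (E : Ideal S) [E.IsPrime] {m : ℕ}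
    {t : Fin m → S} (h : IndMod k E t) :
    ∃ t' : Fin m → R, IndMod k (E.comap (algebraMap R S)) t' := by
  classical
  set p : Ideal R := E.comap (algebraMap R S) with hp
  have hpp : p.IsPrime := Ideal.IsPrime.comap _
  apply exists_indMod_of_le_trdeg
  refine h.le_trdeg.trans ?_
  have hl : E.LiesOver p := ⟨rfl⟩
  have h1 := _root_.lift_trdeg_add_eq k (R ⧸ p) (S ⧸ E)
  have h2 : Algebra.trdeg (R ⧸ p) (S ⧸ E) = 0 := by
    have : Algebra.IsIntegral (R ⧸ p) (S ⧸ E) := inferInstance
    have : Algebra.IsAlgebraic (R ⧸ p) (S ⧸ E) := inferInstance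
    exact _root_.trdeg_eq_zero
  rw [h2, Cardinal.lift_zero, add_zero, Cardinal.lift_id, Cardinal.lift_id] at h1
  exact h1.ge

end Desc

section Frac

variable {k : Type w} {A : Type u} {K : Type v} [Field k] [CommRing A] [IsDomain A] [Field K]
  [Algebra k A] [Algebra k K] [Algebra A K] [IsScalarTower k A K] [IsFractionRing A K]

theorem trdeg_le_of_field {n : ℕ} (h : Algebra.trdeg k K ≤ n) : Algebra.trdeg k A ≤ n := by
  have h1 := _root_.lift_trdeg_le_of_injective (IsScalarTower.toAlgHom k A K)
    (IsFractionRing.injective A K)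
  have h2 : Cardinal.lift.{u} (Algebra.trdeg k K) ≤ Cardinal.lift.{u} (n : Cardinal.{v}) :=
    Cardinal.lift_le.2 h
  have h3 := h1.trans h2
  rw [Cardinal.lift_natCast, ← Cardinal.lift_natCast.{v, u} n, Cardinal.lift_le] at h3
  exact h3

/-- (a) Every element of `V` is a fraction of elements of `A` with denominator a unit of `V`. -/
theorem frac_of_indV [IsNoetherianRing A] [IsIntegrallyClosed A] {V : ValuationSubring K}
    (hA : ∀ a : A, algebraMap A K a ∈ V) (hV : V ≠ ⊤) {m n : ℕ} {t : Fin m → K}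
    (ht : ∀ i, ∃ a b : A, V.valuation (algebraMap A K b) = 1 ∧
      t i * algebraMap A K b = algebraMap A K a)
    (h : IndV k V t) (hn : Algebra.trdeg k K ≤ n) (hmn : n ≤ m + 1) :
    TGh4.Disc V ∧ ∀ x ∈ V, ∃ a b : A, V.valuation (algebraMap A K b) = 1 ∧
      x * algebraMap A K b = algebraMap A K a := by
  classical
  let M : Submonoid A := (cen A V hA).primeCompl
  have hM : M ≤ nonZeroDivisors A := Ideal.primeCompl_le_nonZeroDivisors _
  let B : Subalgebra A K := Localization.subalgebra.ofField K M hM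
  have hmemB : ∀ x : K, x ∈ B ↔ ∃ (a s : A) (_ : s ∈ M),
      x = algebraMap A K a * (algebraMap A K s)⁻¹ := fun x => Iff.rfl
  have hMv : ∀ s : A, s ∈ M ↔ V.valuation (algebraMap A K s) = 1 := fun s => notMem_cen
  have hBV : ∀ b : B, algebraMap B K b ∈ V := by
    rintro ⟨x, a, s, hs, rfl⟩
    show algebraMap A K a * (algebraMap A K s)⁻¹ ∈ V
    rw [← ValuationSubring.valuation_le_one_iff, map_mul, map_inv₀, (hMv s).1 hs, inv_one, mul_one]
    exact (V.valuation_le_one_iff _).2 (hA a)
  have hloc : IsLocalization M B := Localization.subalgebra.isLocalization_ofField K M hM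
  have hnoeth : IsNoetherianRing B := IsLocalization.isNoetherianRing M B inferInstance
  have hic : IsIntegrallyClosed B := isIntegrallyClosed_of_isLocalization B M hM
  have hfr : IsFractionRing B K := Localization.subalgebra.isFractionRing_ofField K M hM
  have hex : ∀ i, ∃ b : B, algebraMap B K b = t i := by
    intro i
    obtain ⟨a, b, hb, e⟩ := ht i
    have hb0 : algebraMap A K b ≠ 0 := by
      intro h0
      rw [h0, map_zero] at hb
      exact zero_ne_one hb
    refine ⟨⟨t i, (hmemB _).2 ⟨a, b, (hMv b).2 hb, ?_⟩⟩, rfl⟩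
    rw [← e]
    field_simp
  choose t' ht' using hex
  have hind : IndV k V (fun i => algebraMap B K (t' i)) := by
    have e1 : (fun i => algebraMap B K (t' i)) = t := funext ht'
    rw [e1]
    exact h
  obtain ⟨h1, h2⟩ := hind.eq_valP hBV hV (trdeg_le_of_field (K := K) hn) hmn
  refine ⟨?_, ?_⟩
  · rw [h2]
    exact disc_valP h1
  intro x hx
  rw [h2, mem_valP] at hx
  obtain ⟨⟨_, a1, s1, hs1, rfl⟩, ⟨_, a2, s2, hs2, rfl⟩, hs, e⟩ := hx
  rw [notMem_cen] at hs
  have e' : x * (algebraMap A K a2 * (algebraMap A K s2)⁻¹) =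
      algebraMap A K a1 * (algebraMap A K s1)⁻¹ := e
  have hs' : V.valuation (algebraMap A K a2 * (algebraMap A K s2)⁻¹) = 1 := hs
  have hs1' := (hMv s1).1 hs1
  have hs2' := (hMv s2).1 hs2
  have h10 : algebraMap A K s1 ≠ 0 := by
    intro h0; rw [h0, map_zero] at hs1'; exact zero_ne_one hs1'
  have h20 : algebraMap A K s2 ≠ 0 := by
    intro h0; rw [h0, map_zero] at hs2'; exact zero_ne_one hs2'
  refine ⟨a1 * s2, a2 * s1, ?_, ?_⟩
  · rw [map_mul, map_mul, hs1', mul_one]
    rw [map_mul, map_inv₀, hs2', inv_one, mul_one] at hs'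
    exact hs'
  · rw [map_mul, map_mul]
    field_simp at e'
    linear_combination e'

-- (c) A derivation of `K` which preserves `A` preserves `V`.
omit [IsDomain A] [Algebra k A] [IsScalarTower k A K] [IsFractionRing A K] in
theorem deriv_mem_of_frac {V : ValuationSubring K} (hA : ∀ a : A, algebraMap A K a ∈ V)
    (hfr : ∀ x ∈ V, ∃ a b : A, V.valuation (algebraMap A K b) = 1 ∧
      x * algebraMap A K b = algebraMap A K a)
    (D : Derivation k K K) (hD : ∀ a : A, ∃ b : A, D (algebraMap A K a) = algebraMap A K b)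
    {x : K} (hx : x ∈ V) : D x ∈ V := by
  obtain ⟨a, b, hb, e⟩ := hfr x hx
  obtain ⟨a', ha'⟩ := hD a
  obtain ⟨b', hb'⟩ := hD b
  have hb0 : algebraMap A K b ≠ 0 := by
    intro h0; rw [h0, map_zero] at hb; exact zero_ne_one hb
  have h1 : D x * algebraMap A K b = algebraMap A K a' - x * algebraMap A K b' := by
    have h2 := congrArg D e
    rw [Derivation.leibniz, ha', hb', smul_eq_mul, smul_eq_mul] at h2
    linear_combination h2
  have h3 : algebraMap A K a' - x * algebraMap A K b' ∈ V :=
    V.toSubring.sub_mem (hA _) (V.mul_mem _ _ hx (hA _))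
  rw [← h1, ← ValuationSubring.valuation_le_one_iff, map_mul, hb, mul_one,
    ValuationSubring.valuation_le_one_iff] at h3
  exact h3

end Frac

end Pool.Agent.TG51
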