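import Pool.Agent.Lib.TG_h51.TrdB
import Pool.Agent.Lib.TG_h68.FinClos
import Pool.Agent.Lib.TG_h4.OrdV

/-!
# Divisorial valuations

`IndV k V t` : the residues of the `t i` in the residue field of `V` are algebraically independent
over `k`.  If `t` has `n - 1` members and `V ≠ K`, then `V` is the local ring at a prime of height
one of every normal noetherian `A ⊆ V` with `t i ∈ A` and fraction field `K`.
-/

namespace Pool.Agent.TG51

open Ideal MvPolynomial

universe u v w

/-- The residues of the `t i` are algebraically independent over `k`. -/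
def IndV (k : Type w) {K : Type v} [Field k] [Field K] [Algebra k K] (V : ValuationSubring K)
    {ι : Type*} (t : ι → K) : Prop :=
  ∀ f : MvPolynomial ι k, f ≠ 0 → V.valuation (aeval t f) = 1

section Centre

variable {A : Type u} {K : Type v} [CommRing A] [Field K] [Algebra A K]

/-- The centre of `V` on `A`. -/
def cen (A : Type u) {K : Type v} [CommRing A] [Field K] [Algebra A K] (V : ValuationSubring K)
    (hA : ∀ a : A, algebraMap A K a ∈ V) : Ideal A where
  carrier := {a | V.valuation (algebraMap A K a) < 1}
  add_mem' := by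
    intro a b ha hb
    show V.valuation (algebraMap A K (a + b)) < 1
    rw [map_add]
    exact V.valuation.map_add_lt ha hb
  zero_mem' := by
    show V.valuation (algebraMap A K 0) < 1
    rw [map_zero, map_zero]
    exact zero_lt_one
  smul_mem' := by
    intro c x hx
    show V.valuation (algebraMap A K (c • x)) < 1
    rw [smul_eq_mul, map_mul, map_mul]
    exact (mul_le_of_le_one_left' ((V.valuation_le_one_iff _).2 (hA c))).trans_lt hx

theorem mem_cen {V : ValuationSubring K} {hA : ∀ a : A, algebraMap A K a ∈ V} {a : A} :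
    a ∈ cen A V hA ↔ V.valuation (algebraMap A K a) < 1 := Iff.rfl

theorem notMem_cen {V : ValuationSubring K} {hA : ∀ a : A, algebraMap A K a ∈ V} {a : A} :
    a ∉ cen A V hA ↔ V.valuation (algebraMap A K a) = 1 := by
  rw [mem_cen, not_lt]
  exact ⟨fun h => le_antisymm ((V.valuation_le_one_iff _).2 (hA a)) h, fun h => h.ge⟩

instance cen_isPrime (V : ValuationSubring K) (hA : ∀ a : A, algebraMap A K a ∈ V) :
    (cen A V hA).IsPrime := by
  refine ⟨?_, ?_⟩
  · rw [Ne, Ideal.eq_top_iff_one, mem_cen, map_one, map_one]
    exact lt_irrefl _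
  · intro a b hab
    by_contra hcon
    push Not at hcon
    rw [notMem_cen, notMem_cen] at hcon
    rw [mem_cen, map_mul, map_mul, hcon.1, hcon.2, one_mul] at hab
    exact lt_irrefl _ hab

theorem cen_ne_bot [IsFractionRing A K] {V : ValuationSubring K}
    {hA : ∀ a : A, algebraMap A K a ∈ V} (hV : V ≠ ⊤) : cen A V hA ≠ ⊥ := by
  intro hb
  apply hV
  rw [eq_top_iff]
  rintro x -
  obtain ⟨⟨a, s⟩, hx⟩ := IsLocalization.surj (nonZeroDivisors A) x
  simp only at hx
  have hs : (s : A) ∉ cen A V hA := by
    rw [hb, Ideal.mem_bot]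
    have hnt : Nontrivial A := (algebraMap A K).domain_nontrivial
    exact nonZeroDivisors.ne_zero s.2
  rw [notMem_cen] at hs
  rw [← ValuationSubring.valuation_le_one_iff]
  have h1 : V.valuation x * V.valuation (algebraMap A K s) = V.valuation (algebraMap A K a) := by
    rw [← map_mul, hx]
  rw [hs, mul_one] at h1
  rw [h1]
  exact (V.valuation_le_one_iff _).2 (hA a)

/-- `V` contains the local ring of its centre. -/
theorem mem_of_inLoc_cen {V : ValuationSubring K} {hA : ∀ a : A, algebraMap A K a ∈ V} {x : K}
    (hx : InLoc (cen A V hA) x) : x ∈ V := by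
  obtain ⟨a, s, hs, e⟩ := hx
  rw [notMem_cen] at hs
  rw [← ValuationSubring.valuation_le_one_iff]
  have h1 : V.valuation x * V.valuation (algebraMap A K s) = V.valuation (algebraMap A K a) := by
    rw [← map_mul, e]
  rw [hs, mul_one] at h1
  rw [h1]
  exact (V.valuation_le_one_iff _).2 (hA a)

end Centre

section IndV

variable {k : Type w} {K : Type v} [Field k] [Field K] [Algebra k K] {V : ValuationSubring K}

theorem IndV.const {ι : Type*} {t : ι → K} (h : IndV k V t) {c : k} (hc : c ≠ 0) :
    V.valuation (algebraMap k K c) = 1 := by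
  have := h (C c) (by rwa [Ne, C_eq_zero])
  rwa [aeval_C] at this

theorem IndV.ov {ι : Type*} {t : ι → K} (h : IndV k V t) (c : k) : algebraMap k K c ∈ V := by
  by_cases hc : c = 0
  · rw [hc, map_zero]; exact V.zero_mem
  · rw [← ValuationSubring.valuation_le_one_iff, h.const hc]

theorem IndV.algInd {ι : Type*} {t : ι → K} (h : IndV k V t) : AlgebraicIndependent k t := by
  rw [algebraicIndependent_iff]
  intro f hf
  by_contra hf0
  have := h f hf0
  rw [hf, map_zero] at this
  exact zero_ne_one this

theorem IndV.aeval_mem {ι : Type*} {t : ι → K} (h : IndV k V t) (f : MvPolynomial ι k) :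
    aeval t f ∈ V := by
  by_cases hf : f = 0
  · rw [hf, map_zero]; exact V.zero_mem
  · rw [← ValuationSubring.valuation_le_one_iff, h f hf]

theorem IndV.mem {ι : Type*} {t : ι → K} (h : IndV k V t) (i : ι) : t i ∈ V := by
  have := h.aeval_mem (X i)
  rwa [aeval_X] at this

/-- If `V` contains the field `k(t)` and the `t i` are independent, then so are the residues. -/
theorem indV_of_field {ι : Type*} {t : ι → K} (ht : AlgebraicIndependent k t)
    (L : IntermediateField k K) (hL : ∀ i, t i ∈ L) (hV : ∀ x ∈ L, x ∈ V) : IndV k V t := by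
  intro f hf
  have h0 : aeval t f ≠ 0 := fun h0 => hf (ht.eq_zero_of_aeval_eq_zero f h0)
  have h1 : aeval t f ∈ L := by
    have e : aeval t f = ((aeval (fun i => (⟨t i, hL i⟩ : L)) f : L) : K) := by
      have : (aeval t : MvPolynomial ι k →ₐ[k] K) =
          L.val.comp (aeval (fun i => (⟨t i, hL i⟩ : L))) := by
        ext i
        simp
      rw [this]
      rfl
    rw [e]
    exact SetLike.coe_mem _
  have h2 := hV _ h1
  have h3 := hV _ (L.inv_mem h1)
  rw [← ValuationSubring.valuation_le_one_iff] at h2 h3
  rw [map_inv₀, inv_le_one₀ (zero_lt_iff.2 (by rwa [Ne, Valuation.zero_iff]))] at h3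
  exact le_antisymm h2 h3

/-- Adding an element of positive value. -/
theorem IndV.option_algInd {ι : Type*} {t : ι → K} (h : IndV k V t) {a : K} (ha : a ≠ 0)
    (hav : V.valuation a < 1) : AlgebraicIndependent k (fun o : Option ι => o.elim a t) := by
  rw [h.algInd.option_iff_transcendental]
  intro halg
  obtain ⟨q, hq0, hq⟩ := IsAlgebraic.exists_nonzero_coeff_and_aeval_eq_zero halg
    (mem_nonZeroDivisors_of_ne_zero ha)
  have hmem : ∀ z : Algebra.adjoin k (Set.range t), ∃ f : MvPolynomial ι k, aeval t f = (z : K) := by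
    intro z
    have hz := z.2
    have : ∀ y ∈ Algebra.adjoin k (Set.range t), ∃ f : MvPolynomial ι k, aeval t f = y := by
      intro y hy
      rw [Algebra.adjoin_range_eq_range_aeval] at hy
      exact hy
    exact this _ hz
  have hV' : ∀ z : Algebra.adjoin k (Set.range t), (z : K) ∈ V := by
    intro z
    obtain ⟨f, hf⟩ := hmem z
    rw [← hf]
    exact h.aeval_mem f
  rw [← Polynomial.divX_mul_X_add q, map_add, map_mul, Polynomial.aeval_X, Polynomial.aeval_C] at hq
  have haV : a ∈ V := (V.valuation_le_one_iff _).1 hav.le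
  have hdV : Polynomial.aeval a q.divX ∈ V := by
    rw [Polynomial.aeval_eq_sum_range]
    refine V.toSubring.sum_mem fun i _ => ?_
    rw [Algebra.smul_def]
    exact V.mul_mem _ _ (hV' _) (V.pow_mem haV _)
  have h0 : algebraMap (Algebra.adjoin k (Set.range t)) K (q.coeff 0) =
      -(Polynomial.aeval a q.divX * a) := by linear_combination hq
  have h1 : V.valuation (algebraMap (Algebra.adjoin k (Set.range t)) K (q.coeff 0)) < 1 := by
    rw [h0, Valuation.map_neg, map_mul]
    calc V.valuation (Polynomial.aeval a q.divX) * V.valuation a ≤ 1 * V.valuation a :=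
          mul_le_mul_left ((V.valuation_le_one_iff _).2 hdV) _
      _ < 1 := by rwa [one_mul]
  obtain ⟨f, hf⟩ := hmem (q.coeff 0)
  by_cases hf0 : f = 0
  · apply hq0
    apply Subtype.ext
    rw [← hf, hf0, map_zero]
    rfl
  · have h2 := h f hf0
    rw [hf] at h2
    exact absurd h1 (by rw [show algebraMap (Algebra.adjoin k (Set.range t)) K (q.coeff 0) =
      ((q.coeff 0 : Algebra.adjoin k (Set.range t)) : K) from rfl, h2]; exact lt_irrefl _)

/-- Residues and residues modulo the centre. -/
theorem IndV.indMod_cen {A : Type u} [CommRing A] [Algebra k A] [Algebra A K] [IsScalarTower k A K]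
    {hA : ∀ a : A, algebraMap A K a ∈ V} {ι : Type*} {t : ι → A}
    (h : IndV k V (fun i => algebraMap A K (t i))) : IndMod k (cen A V hA) t := by
  intro f hf
  by_contra hf0
  have h1 := h f hf0
  rw [mem_cen] at hf
  have e : algebraMap A K (aeval t f) = aeval (fun i => algebraMap A K (t i)) f := by
    have : (aeval (fun i => algebraMap A K (t i)) : MvPolynomial ι k →ₐ[k] K) =
        (IsScalarTower.toAlgHom k A K).comp (aeval t) := by
      ext i
      simp
    rw [this]
    rfl
  rw [e, h1] at hf
  exact lt_irrefl _ hf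

/-- (K8) A valuation ring with `m` independent residues, `trdeg ≤ m + 1`, is the local ring of its
centre on every normal noetherian `A ⊆ V` containing the `m` elements; the centre has height one. -/
theorem IndV.eq_valP {A : Type u} [CommRing A] [IsDomain A] [Algebra k A] [Algebra A K]
    [IsScalarTower k A K] [IsFractionRing A K] [IsNoetherianRing A] [IsIntegrallyClosed A]
    (hA : ∀ a : A, algebraMap A K a ∈ V) (hV : V ≠ ⊤) {m n : ℕ} {t : Fin m → A}
    (h : IndV k V (fun i => algebraMap A K (t i))) (hn : Algebra.trdeg k A ≤ n) (hmn : n ≤ m + 1) :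
    ∃ h1 : (cen A V hA).height = 1, V = valP K (cen A V hA) h1 := by
  have h1 : (cen A V hA).height = 1 :=
    height_one_of_indMod (cen_ne_bot hV) h.indMod_cen hn hmn
  refine ⟨h1, eq_valP_of_le h1 V hV ?_⟩
  intro x hx
  exact mem_of_inLoc_cen hx

end IndV

/-- `valP` is discrete in the sense of helper4. -/
theorem disc_valP {A : Type u} {K : Type v} [CommRing A] [IsDomain A] [Field K] [Algebra A K]
    [IsFractionRing A K] [IsNoetherianRing A] [IsIntegrallyClosed A] {P : Ideal A} [P.IsPrime]
    (h : P.height = 1) : TGh4.Disc (valP K P h) := by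
  have := dvr_valP (K := K) h
  obtain ⟨π, hπ⟩ := IsDiscreteValuationRing.exists_irreducible (valP K P h)
  have hπ0 : (π : K) ≠ 0 := fun h0 => hπ.ne_zero (Subtype.ext h0)
  refine ⟨π, TGh4.isUnif_of hπ0 ?_ ?_⟩
  · rw [← ValuationSubring.valuation_lt_one_iff]
    exact hπ.not_isUnit
  · intro x hx hx0
    obtain ⟨n, hn⟩ := IsDiscreteValuationRing.associated_pow_irreducible
      (x := (⟨x, hx⟩ : valP K P h)) (fun h0 => hx0 (congrArg Subtype.val h0)) hπ
    obtain ⟨u, hu⟩ := hn
    refine ⟨n, ?_⟩
    have e : x * ((u : valP K P h) : K) = (π : K) ^ n := congrArg Subtype.val hu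
    have hu1 : (valP K P h).valuation ((u : valP K P h) : K) = 1 :=
      ValuationSubring.valuation_unit _ u
    rw [← map_pow, ← e, map_mul, hu1, mul_one]

end Pool.Agent.TG51
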