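import Mathlib

/-!
# Normal noetherian domains and their divisors (TANK G, service row)

`A` is a domain with fraction field `K`.

* `InLoc P x` : `x : K` lies in the local ring `A_P`.
* `mem_of_height_one` : a normal noetherian domain is the intersection of its local rings at the
  primes of height one.
* `valP` : the valuation subring `A_P` of `K` for a prime `P` of height one; it is a discrete
  valuation ring with centre `P`.
* `finite_height_one` : only finitely many primes of height one contain a given nonzero element.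
-/

namespace Pool.Agent.TG51

open Ideal

universe u v

variable {A : Type u} {K : Type v} [CommRing A] [IsDomain A] [Field K] [Algebra A K]
  [IsFractionRing A K]

/-- `x ∈ A_P`. -/
def InLoc (P : Ideal A) (x : K) : Prop := ∃ a s : A, s ∉ P ∧ x * algebraMap A K s = algebraMap A K a

omit [IsDomain A] [IsFractionRing A K] in
theorem InLoc.of_le {P Q : Ideal A} (h : Q ≤ P) {x : K} (hx : InLoc P x) : InLoc Q x := by
  obtain ⟨a, s, hs, e⟩ := hx
  exact ⟨a, s, fun hq => hs (h hq), e⟩

omit [IsDomain A] [IsFractionRing A K] in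
theorem inLoc_algebraMap (P : Ideal A) (hP : P ≠ ⊤) (a : A) : InLoc P (algebraMap A K a) :=
  ⟨a, 1, fun h => hP ((Ideal.eq_top_iff_one _).2 h), by simp⟩

/-- The key step: if `P = (A : y)` is prime, `y ∉ A` and `A` is normal noetherian, then `P` has
height one. -/
theorem height_one_of_colon [IsNoetherianRing A] [IsIntegrallyClosed A] (P : Ideal A) [P.IsPrime]
    (y : K) (hy : ¬ ∃ a : A, algebraMap A K a = y)
    (hP : ∀ r : A, r ∈ P ↔ ∃ a : A, algebraMap A K a = algebraMap A K r * y) : P.height = 1 := by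
  classical
  have hinj : Function.Injective (algebraMap A K) := IsFractionRing.injective A K
  -- some element of `P` is moved by `y` to a unit at `P`
  have h1 : ∃ p0 ∈ P, ∃ u : A, u ∉ P ∧ algebraMap A K u = algebraMap A K p0 * y := by
    by_contra hcon
    push Not at hcon
    apply hy
    have hPne : P ≠ ⊥ := by
      rintro rfl
      obtain ⟨⟨a, s⟩, h⟩ := IsLocalization.surj (nonZeroDivisors A) y
      have hs : (s : A) ∈ (⊥ : Ideal A) := (hP s).2 ⟨a, by rw [mul_comm]; exact h.symm⟩
      exact nonZeroDivisors.ne_zero s.2 (by simp at hs)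
    let N : Submodule A K := Submodule.map (Algebra.linearMap A K) P
    have hN : N ≠ ⊥ := by
      obtain ⟨a, ha, ha0⟩ := (Submodule.ne_bot_iff _).1 hPne
      rw [Submodule.ne_bot_iff]
      exact ⟨algebraMap A K a, ⟨a, ha, rfl⟩, fun h => ha0 (hinj (by simpa using h))⟩
    have hN' : N.FG := Submodule.FG.map _ (IsNoetherian.noetherian P)
    have hint : IsIntegral A y := by
      refine isIntegral_of_smul_mem_submodule N hN hN' y ?_
      rintro _ ⟨r, hr, rfl⟩
      obtain ⟨a, ha⟩ := (hP r).1 hr
      have ha' : a ∈ P := by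
        by_contra hap
        exact hcon r hr a hap ha
      refine ⟨a, ha', ?_⟩
      simp only [Algebra.linearMap_apply, smul_eq_mul]
      rw [ha, mul_comm]
    exact IsIntegrallyClosed.algebraMap_eq_of_integral hint
  obtain ⟨p0, hp0, u, hu, hue⟩ := h1
  have hu0 : u ≠ 0 := fun h => hu (h ▸ P.zero_mem)
  have hp00 : p0 ≠ 0 := by
    rintro rfl
    apply hu0
    apply hinj
    simpa using hue
  have hmin : P ∈ (Ideal.span {p0}).minimalPrimes := by
    refine ⟨⟨inferInstance, (Ideal.span_singleton_le_iff_mem _).2 hp0⟩, ?_⟩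
    rintro Q ⟨hQ, hQp⟩ hQP r hr
    obtain ⟨a, ha⟩ := (hP r).1 hr
    -- r u = p0 a
    have e : r * u = p0 * a := by
      apply hinj
      rw [map_mul, map_mul, hue, ha]
      ring
    have : r * u ∈ Q := by
      rw [e]
      exact Q.mul_mem_right _ (hQp (Ideal.mem_span_singleton_self p0))
    rcases hQ.mem_or_mem this with h | h
    · exact h
    · exact absurd (hQP h) hu
  have hle : P.height ≤ 1 := Ideal.height_le_one_of_isPrincipal_of_mem_minimalPrimes _ P hmin
  have hne : P.height ≠ 0 := by
    rw [Ne, Ideal.height_eq_zero_iff_eq_bot]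
    rintro rfl
    exact hp00 (by simpa using hp0)
  exact le_antisymm hle (Order.one_le_iff_ne_zero.2 hne)

/-- (K1) A normal noetherian domain is the intersection of its local rings at the primes of height
one. -/
theorem mem_of_height_one [IsNoetherianRing A] [IsIntegrallyClosed A] (x : K)
    (h : ∀ P : Ideal A, P.IsPrime → P.height = 1 → InLoc P x) : ∃ a : A, algebraMap A K a = x := by
  classical
  by_contra hx
  let M := K ⧸ (LinearMap.range (Algebra.linearMap A K))
  let q : K →ₗ[A] M := Submodule.mkQ _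
  have hq : ∀ z : K, q z = 0 ↔ ∃ a : A, algebraMap A K a = z := by
    intro z
    show Submodule.Quotient.mk z = 0 ↔ _
    rw [Submodule.Quotient.mk_eq_zero, LinearMap.mem_range]
    rfl
  have hx0 : q x ≠ 0 := fun h0 => hx ((hq x).1 h0)
  obtain ⟨P, hP, hle⟩ := exists_le_isAssociatedPrime_of_isNoetherianRing A (q x) hx0
  obtain ⟨hPp, ybar, hyP⟩ := isAssociatedPrime_iff.1 hP
  obtain ⟨y, rfl⟩ := Submodule.mkQ_surjective _ ybar
  have hmem : ∀ (r : A) (z : K), r ∈ (⊥ : Submodule A M).colon {q z} ↔
      ∃ a : A, algebraMap A K a = algebraMap A K r * z := by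
    intro r z
    rw [Submodule.mem_colon_singleton, Submodule.mem_bot, ← map_smul, hq, Algebra.smul_def]
  have := hPp
  have h1 : P.height = 1 := by
    refine height_one_of_colon P y ?_ ?_
    · rintro ⟨a, ha⟩
      apply hPp.ne_top
      rw [Ideal.eq_top_iff_one, hyP]
      exact (hmem 1 y).2 ⟨a, by simpa using ha⟩
    · intro r
      conv_lhs => rw [hyP]
      exact hmem r y
  obtain ⟨a, s, hs, e⟩ := h P hPp h1
  apply hs
  apply hle
  exact (hmem s x).2 ⟨a, by rw [← e, mul_comm]⟩

/-- (K3) Only finitely many primes of height one contain a given nonzero element. -/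
theorem finite_height_one [IsNoetherianRing A] (a : A) (ha : a ≠ 0) :
    {P : Ideal A | P.IsPrime ∧ P.height = 1 ∧ a ∈ P}.Finite := by
  refine (Ideal.finite_minimalPrimes_of_isNoetherianRing A (Ideal.span {a})).subset ?_
  rintro P ⟨hP, h1, haP⟩
  refine ⟨⟨hP, (Ideal.span_singleton_le_iff_mem _).2 haP⟩, ?_⟩
  rintro Q ⟨hQ, hQa⟩ hQP
  by_contra hne
  have hlt : Q < P := lt_of_le_not_ge hQP hne
  have := hQ
  have := hP
  have h2 := Ideal.height_add_one_le_of_lt_of_isPrime hlt
  rw [h1] at h2
  have h0 : Q.height = 0 := by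
    by_contra h0
    have h3 : (1 : ℕ∞) ≤ Q.height := Order.one_le_iff_ne_zero.2 h0
    have h4 : (1 : ℕ∞) + 1 ≤ 1 := le_trans (by gcongr) h2
    exact absurd h4 (by decide)
  rw [Ideal.height_eq_zero_iff_eq_bot] at h0
  rw [h0] at hQa
  exact ha (by simpa using hQa (Ideal.mem_span_singleton_self a))

/-- A prime strictly below a prime of height one is zero. -/
theorem eq_bot_of_lt {P Q : Ideal A} [P.IsPrime] [Q.IsPrime] (h : P.height = 1) (hlt : Q < P) :
    Q = ⊥ := by
  have h2 := Ideal.height_add_one_le_of_lt_of_isPrime hlt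
  rw [h] at h2
  by_contra h0
  rw [← Ideal.height_eq_zero_iff_eq_bot] at h0
  have h3 : (1 : ℕ∞) ≤ Q.height := Order.one_le_iff_ne_zero.2 h0
  have h4 : (1 : ℕ∞) + 1 ≤ 1 := le_trans (by gcongr) h2
  exact absurd h4 (by decide)

/-- A nonzero prime with no prime strictly between it and zero has height one. -/
theorem height_eq_one_of_forall {P : Ideal A} [P.IsPrime] (hP : P ≠ ⊥)
    (h : ∀ Q : Ideal A, Q.IsPrime → Q < P → Q = ⊥) : P.height = 1 := by
  have hle : P.height ≤ 1 := by
    rw [show (1 : ℕ∞) = ((1 : ℕ) : ℕ∞) by rfl, Ideal.height_le_iff]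
    intro Q hQ hlt
    have := h Q hQ hlt
    rw [Ideal.height_eq_zero_iff_eq_bot.2 this]
    norm_num
  have hne : P.height ≠ 0 := by
    rw [Ne, Ideal.height_eq_zero_iff_eq_bot]
    exact hP
  exact le_antisymm hle (Order.one_le_iff_ne_zero.2 hne)

section Val

variable (K)

/-- The local ring of a prime as a subring of the fraction field. -/
def locP (P : Ideal A) [P.IsPrime] : Subring K where
  carrier := {x | InLoc P x}
  mul_mem' := by
    rintro x y ⟨a, s, hs, e⟩ ⟨b, t, ht, f⟩
    refine ⟨a * b, s * t, fun h => ?_, ?_⟩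
    · rcases Ideal.IsPrime.mem_or_mem inferInstance h with h | h
      · exact hs h
      · exact ht h
    · rw [map_mul, map_mul, ← e, ← f]; ring
  one_mem' := ⟨1, 1, fun h => Ideal.IsPrime.ne_top inferInstance ((Ideal.eq_top_iff_one _).2 h),
    by simp⟩
  add_mem' := by
    rintro x y ⟨a, s, hs, e⟩ ⟨b, t, ht, f⟩
    refine ⟨a * t + b * s, s * t, fun h => ?_, ?_⟩
    · rcases Ideal.IsPrime.mem_or_mem inferInstance h with h | h
      · exact hs h
      · exact ht h
    · rw [map_mul, map_add, map_mul, map_mul, ← e, ← f]; ring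
  zero_mem' := ⟨0, 1, fun h => Ideal.IsPrime.ne_top inferInstance ((Ideal.eq_top_iff_one _).2 h),
    by simp⟩
  neg_mem' := by
    rintro x ⟨a, s, hs, e⟩
    exact ⟨-a, s, hs, by rw [map_neg, ← e]; ring⟩

variable {K}

omit [IsDomain A] [IsFractionRing A K] in
theorem mem_locP {P : Ideal A} [P.IsPrime] {x : K} : x ∈ locP K P ↔ InLoc P x := Iff.rfl

end Val

end Pool.Agent.TG51
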