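import Pool.Agent.Lib.TG_h51.Krull

/-!
# The valuation ring of a prime of height one
-/

namespace Pool.Agent.TG51

open Ideal

universe u v

variable {A : Type u} {K : Type v} [CommRing A] [IsDomain A] [Field K] [Algebra A K]
  [IsFractionRing A K]

/-- The localisation at a prime of height one of a normal noetherian domain is a discrete
valuation ring. -/
theorem dvr_localization [IsNoetherianRing A] [IsIntegrallyClosed A] (P : Ideal A) [P.IsPrime]
    (h : P.height = 1) : IsDiscreteValuationRing (Localization.AtPrime P) := by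
  have hPb : P ≠ ⊥ := Ideal.ne_bot_of_height_eq_one h
  have hn : IsNoetherianRing (Localization.AtPrime P) :=
    IsLocalization.isNoetherianRing P.primeCompl _ inferInstance
  have hd : IsDomain (Localization.AtPrime P) :=
    IsLocalization.isDomain_localization P.primeCompl_le_nonZeroDivisors
  have hi : IsIntegrallyClosed (Localization.AtPrime P) :=
    isIntegrallyClosed_of_isLocalization (Localization.AtPrime P) P.primeCompl
      P.primeCompl_le_nonZeroDivisors
  have hnf : ¬ IsField (Localization.AtPrime P) := by
    rw [IsLocalRing.isField_iff_maximalIdeal_eq]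
    intro hb
    apply hPb
    have := Localization.AtPrime.under_maximalIdeal (I := P)
    rw [hb] at this
    rw [← this]
    have hinj : Function.Injective (algebraMap A (Localization.AtPrime P)) :=
      IsLocalization.injective _ P.primeCompl_le_nonZeroDivisors
    ext x
    rw [Ideal.mem_comap, Ideal.mem_bot, Ideal.mem_bot]
    exact ⟨fun h => hinj (by rw [h, map_zero]), fun h => by rw [h, map_zero]⟩
  have htf : IsDiscreteValuationRing (Localization.AtPrime P) ↔
      (IsIntegrallyClosed (Localization.AtPrime P) ∧
        ∃! Q : Ideal (Localization.AtPrime P), Q ≠ ⊥ ∧ Q.IsPrime) :=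
    (IsDiscreteValuationRing.TFAE (Localization.AtPrime P) hnf).out 0 3
  refine htf.2 ⟨hi, IsLocalRing.maximalIdeal _, ⟨?_, inferInstance⟩, ?_⟩
  · rwa [Ne, ← IsLocalRing.isField_iff_maximalIdeal_eq]
  · rintro Q ⟨hQ0, hQ⟩
    have hinj : Function.Injective (algebraMap A (Localization.AtPrime P)) :=
      IsLocalization.injective _ P.primeCompl_le_nonZeroDivisors
    let q : Ideal A := Q.comap (algebraMap A (Localization.AtPrime P))
    have hq : q.IsPrime := Ideal.IsPrime.comap _
    have hqP : q ≤ P := by
      have := Ideal.comap_mono (f := algebraMap A (Localization.AtPrime P))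
        (IsLocalRing.le_maximalIdeal hQ.ne_top)
      rwa [show Ideal.comap (algebraMap A (Localization.AtPrime P)) (IsLocalRing.maximalIdeal _) = P from Localization.AtPrime.under_maximalIdeal] at this
    have hmap : Ideal.map (algebraMap A (Localization.AtPrime P)) q = Q :=
      IsLocalization.map_under P.primeCompl _ Q
    rcases eq_or_lt_of_le hqP with he | hlt
    · rw [← hmap, he, Localization.AtPrime.map_eq_maximalIdeal]
    · exfalso
      have : q = ⊥ := eq_bot_of_lt h hlt
      apply hQ0
      rw [← hmap, this, Ideal.map_bot]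

/-- In a normal noetherian domain, of two elements `a`, `b` one divides the other at a prime of
height one. -/
theorem inLoc_or_inv [IsNoetherianRing A] [IsIntegrallyClosed A] (P : Ideal A) [P.IsPrime]
    (h : P.height = 1) (x : K) : InLoc P x ∨ InLoc P x⁻¹ := by
  classical
  have := dvr_localization P h
  have hinj : Function.Injective (algebraMap A (Localization.AtPrime P)) :=
    IsLocalization.injective _ P.primeCompl_le_nonZeroDivisors
  have hinjK : Function.Injective (algebraMap A K) := IsFractionRing.injective A K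
  by_cases hx : x = 0
  · left
    rw [hx]
    exact ⟨0, 1, fun h => Ideal.IsPrime.ne_top inferInstance ((Ideal.eq_top_iff_one _).2 h),
      by simp⟩
  obtain ⟨⟨a, b⟩, hab⟩ := IsLocalization.surj (nonZeroDivisors A) x
  have hb : (b : A) ≠ 0 := nonZeroDivisors.ne_zero b.2
  have hbK : algebraMap A K b ≠ 0 := fun h0 => hb (hinjK (by rw [h0, map_zero]))
  have hxe : x = algebraMap A K a / algebraMap A K b := by
    rw [eq_div_iff hbK]; exact hab
  have haK : algebraMap A K a ≠ 0 := by
    intro h0
    apply hx
    rw [hxe, h0, zero_div]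
  obtain ⟨c, hc⟩ := ValuationRing.cond (algebraMap A (Localization.AtPrime P) a)
    (algebraMap A (Localization.AtPrime P) b)
  obtain ⟨⟨c0, s0⟩, hcs⟩ := IsLocalization.surj P.primeCompl c
  simp only at hcs
  rcases hc with hc | hc
  · right
    refine ⟨c0, s0, s0.2, ?_⟩
    have e : a * c0 = b * (s0 : A) := by
      apply hinj
      rw [map_mul, map_mul, ← hcs, ← hc]; ring
    have e' : algebraMap A K a * algebraMap A K c0 = algebraMap A K b * algebraMap A K (s0 : A) := by
      rw [← map_mul, ← map_mul, e]
    rw [hxe, inv_div]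
    field_simp
    exact e'.symm
  · left
    refine ⟨c0, s0, s0.2, ?_⟩
    have e : b * c0 = a * (s0 : A) := by
      apply hinj
      rw [map_mul, map_mul, ← hcs, ← hc]; ring
    have e' : algebraMap A K b * algebraMap A K c0 = algebraMap A K a * algebraMap A K (s0 : A) := by
      rw [← map_mul, ← map_mul, e]
    rw [hxe]
    field_simp
    exact e'.symm

variable (K) in
/-- (K2) the valuation ring `A_P` of a prime of height one. -/
def valP [IsNoetherianRing A] [IsIntegrallyClosed A] (P : Ideal A) [P.IsPrime]
    (h : P.height = 1) : ValuationSubring K :=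
  { locP K P with mem_or_inv_mem' := fun x => inLoc_or_inv P h x }

theorem mem_valP [IsNoetherianRing A] [IsIntegrallyClosed A] {P : Ideal A} [P.IsPrime]
    {h : P.height = 1} {x : K} : x ∈ valP K P h ↔ InLoc P x := Iff.rfl

theorem algebraMap_mem_valP [IsNoetherianRing A] [IsIntegrallyClosed A] {P : Ideal A} [P.IsPrime]
    (h : P.height = 1) (a : A) : algebraMap A K a ∈ valP K P h :=
  inLoc_algebraMap P (Ideal.IsPrime.ne_top inferInstance) a

/-- Elements outside `P` are units of `A_P`. -/
theorem inv_mem_valP [IsNoetherianRing A] [IsIntegrallyClosed A] {P : Ideal A} [P.IsPrime]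
    (h : P.height = 1) {a : A} (ha : a ∉ P) : (algebraMap A K a)⁻¹ ∈ valP K P h := by
  refine ⟨1, a, ha, ?_⟩
  rw [map_one, inv_mul_cancel₀]
  intro h0
  apply ha
  have : a = 0 := IsFractionRing.injective A K (by rw [h0, map_zero])
  rw [this]
  exact P.zero_mem

/-- The centre of `A_P` on `A` is `P`. -/
theorem valuation_lt_one_iff [IsNoetherianRing A] [IsIntegrallyClosed A] {P : Ideal A} [P.IsPrime]
    (h : P.height = 1) (a : A) : (valP K P h).valuation (algebraMap A K a) < 1 ↔ a ∈ P := by
  constructor
  · intro hv
    by_contra ha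
    have h1 := inv_mem_valP (K := K) h ha
    rw [← ValuationSubring.valuation_le_one_iff, map_inv₀] at h1
    have h0 : (valP K P h).valuation (algebraMap A K a) ≠ 0 := by
      intro h0
      rw [Valuation.zero_iff] at h0
      apply ha
      have : a = 0 := IsFractionRing.injective A K (by rw [h0, map_zero])
      rw [this]
      exact P.zero_mem
    rw [inv_le_one₀ (zero_lt_iff.2 h0)] at h1
    exact absurd hv (not_lt.2 h1)
  · intro ha
    by_contra hv
    have h1 : (valP K P h).valuation (algebraMap A K a) = 1 :=
      le_antisymm ((ValuationSubring.valuation_le_one_iff _ _).2 (algebraMap_mem_valP h a))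
        (not_lt.1 hv)
    have h2 : (algebraMap A K a)⁻¹ ∈ valP K P h := by
      rw [← ValuationSubring.valuation_le_one_iff, map_inv₀, h1, inv_one]
    obtain ⟨b, s, hs, e⟩ := h2
    apply hs
    have ha0 : algebraMap A K a ≠ 0 := by
      intro h0
      rw [h0, map_zero] at h1
      exact zero_ne_one h1
    have : s = a * b := by
      apply IsFractionRing.injective A K
      rw [map_mul, ← e, ← mul_assoc, mul_inv_cancel₀ ha0, one_mul]
    rw [this]
    exact P.mul_mem_right _ ha

/-- `valP` is not all of `K`. -/
theorem valP_ne_top [IsNoetherianRing A] [IsIntegrallyClosed A] {P : Ideal A} [P.IsPrime]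
    (h : P.height = 1) : valP K P h ≠ ⊤ := by
  intro ht
  obtain ⟨a, ha, ha0⟩ := (Submodule.ne_bot_iff _).1 (Ideal.ne_bot_of_height_eq_one h)
  have h1 := (valuation_lt_one_iff (K := K) h a).2 ha
  have haK : algebraMap A K a ≠ 0 := fun h0 => ha0 (IsFractionRing.injective A K (by rw [h0, map_zero]))
  have h2 : (algebraMap A K a)⁻¹ ∈ valP K P h := by rw [ht]; trivial
  rw [← ValuationSubring.valuation_le_one_iff, map_inv₀, inv_le_one₀] at h2
  · exact absurd h1 (not_lt.2 h2)
  · exact zero_lt_iff.2 (by rwa [Ne, Valuation.zero_iff])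

section IsLoc
variable [IsNoetherianRing A] [IsIntegrallyClosed A] {P : Ideal A} [P.IsPrime] (h : P.height = 1)

/-- `A_P → valP` as a ring isomorphism; hence `valP` is a discrete valuation ring. -/
theorem dvr_valP : IsDiscreteValuationRing (valP K P h) := by
  have := dvr_localization P h
  let f : A →+* (valP K P h) :=
    (algebraMap A K).codRestrict (valP K P h).toSubring (fun a => algebraMap_mem_valP h a)
  have hf : ∀ a : A, ((f a : valP K P h) : K) = algebraMap A K a := fun a => rfl
  have hu : ∀ y : P.primeCompl, IsUnit (f y) := by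
    intro y
    refine IsUnit.of_mul_eq_one ⟨(algebraMap A K y)⁻¹, inv_mem_valP h y.2⟩ ?_
    apply Subtype.ext
    show algebraMap A K y * (algebraMap A K y)⁻¹ = 1
    apply mul_inv_cancel₀
    intro h0
    apply y.2
    have : (y : A) = 0 := IsFractionRing.injective A K (by rw [h0, map_zero])
    rw [this]
    exact P.zero_mem
  let g : Localization.AtPrime P →+* (valP K P h) := IsLocalization.lift (M := P.primeCompl) hu
  have hg : Function.Bijective g := by
    constructor
    · rw [injective_iff_map_eq_zero]
      intro z hz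
      obtain ⟨⟨a, s⟩, hz'⟩ := IsLocalization.surj P.primeCompl z
      have h1 : g (z * algebraMap A _ (s : A)) = g (algebraMap A _ a) := by rw [hz']
      rw [map_mul, hz, zero_mul, IsLocalization.lift_eq] at h1
      have h2 : a = 0 := by
        apply IsFractionRing.injective A K
        rw [map_zero, ← hf a, ← h1]
        rfl
      simp only at hz'
      rw [h2, map_zero] at hz'
      have hs : IsUnit (algebraMap A (Localization.AtPrime P) (s : A)) :=
        IsLocalization.map_units _ s
      exact (hs.mul_left_eq_zero).1 hz'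
    · rintro ⟨x, a, s, hs, e⟩
      refine ⟨IsLocalization.mk' _ a (⟨s, hs⟩ : P.primeCompl), ?_⟩
      rw [IsLocalization.lift_mk'_spec]
      apply Subtype.ext
      show algebraMap A K a = algebraMap A K s * x
      rw [← e, mul_comm]
  exact IsDiscreteValuationRing.RingEquivClass.isDiscreteValuationRing (RingEquiv.ofBijective g hg)

end IsLoc

/-- (K5'') A valuation subring, not all of `K`, which contains `A_P` (`P` of height one) is `A_P`. -/
theorem eq_valP_of_le [IsNoetherianRing A] [IsIntegrallyClosed A] {P : Ideal A} [P.IsPrime]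
    (h : P.height = 1) (V : ValuationSubring K) (hV : V ≠ ⊤) (hle : valP K P h ≤ V) :
    V = valP K P h := by
  refine le_antisymm ?_ hle
  intro x hx
  by_contra hxP
  apply hV
  have := dvr_valP (K := K) h
  obtain ⟨π, hπ⟩ := IsDiscreteValuationRing.exists_irreducible (valP K P h)
  have hx0 : x ≠ 0 := by rintro rfl; exact hxP (valP K P h).zero_mem
  have hxi : x⁻¹ ∈ valP K P h := ((valP K P h).mem_or_inv_mem x).resolve_left hxP
  have hnu : ¬ IsUnit (⟨x⁻¹, hxi⟩ : valP K P h) := by
    intro hu
    obtain ⟨w, hw⟩ := hu.exists_right_inv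
    apply hxP
    have : (w : K) = x := by
      have h1 : x⁻¹ * (w : K) = 1 := congrArg Subtype.val hw
      field_simp at h1
      exact h1
    rw [← this]
    exact w.2
  have hne : (⟨x⁻¹, hxi⟩ : valP K P h) ≠ 0 := by
    intro h0
    have : x⁻¹ = 0 := congrArg Subtype.val h0
    exact inv_ne_zero hx0 this
  obtain ⟨n, hn⟩ := IsDiscreteValuationRing.associated_pow_irreducible hne hπ
  have hn0 : n ≠ 0 := by
    rintro rfl
    rw [pow_zero] at hn
    exact hnu (associated_one_iff_isUnit.1 hn)
  obtain ⟨w, hw⟩ := hn
  -- π⁻¹ ∈ V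
  have hπ0 : (π : K) ≠ 0 := fun h0 => hπ.ne_zero (Subtype.ext h0)
  have hπV : (π : K)⁻¹ ∈ V := by
    have e : x⁻¹ * ((w : valP K P h) : K) = (π : K) ^ n := congrArg Subtype.val hw
    have e2 : (π : K)⁻¹ = x * (((w⁻¹ : (valP K P h)ˣ) : valP K P h) : K) * (π : K) ^ (n - 1) := by
      have hw' : ((w : valP K P h) : K) * (((w⁻¹ : (valP K P h)ˣ) : valP K P h) : K) = 1 := by
        have := w.mul_inv
        exact congrArg Subtype.val this
      have h3 : (π : K) ^ n = (π : K) ^ (n - 1) * π := by
        rw [← pow_succ, Nat.sub_add_cancel (Nat.one_le_iff_ne_zero.2 hn0)]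
      rw [h3] at e
      field_simp
      field_simp at e
      have h4 : ((w : valP K P h) : K) = x * (π : K) ^ (n - 1) * π := by
        rw [e]
      rw [h4] at hw'
      rw [← hw']
      ring
    rw [e2]
    exact V.mul_mem _ _ (V.mul_mem _ _ hx (hle (SetLike.coe_mem _))) (V.pow_mem (hle π.2) _)
  rw [eq_top_iff]
  rintro y -
  rcases (valP K P h).mem_or_inv_mem y with hy | hy
  · exact hle hy
  by_cases hy0 : y = 0
  · rw [hy0]; exact V.zero_mem
  have hne' : (⟨y⁻¹, hy⟩ : valP K P h) ≠ 0 := by
    intro h0
    have : y⁻¹ = 0 := congrArg Subtype.val h0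
    exact inv_ne_zero hy0 this
  obtain ⟨m, hm⟩ := IsDiscreteValuationRing.associated_pow_irreducible hne' hπ
  obtain ⟨w', hw'⟩ := hm
  have e : y⁻¹ * ((w' : valP K P h) : K) = (π : K) ^ m := congrArg Subtype.val hw'
  have e2 : y = ((w' : valP K P h) : K) * ((π : K)⁻¹) ^ m := by
    rw [inv_pow, ← e]
    have hw0 : ((w' : valP K P h) : K) ≠ 0 := by
      intro h0
      exact w'.ne_zero (Subtype.ext h0)
    field_simp
  rw [e2]
  exact V.mul_mem _ _ (hle (SetLike.coe_mem _)) (V.pow_mem hπV _)

/-- (K4) maps preserving all local rings at primes of height one preserve `A`. -/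
theorem map_mem_of_height_one [IsNoetherianRing A] [IsIntegrallyClosed A] (D : K → K)
    (h : ∀ (P : Ideal A), P.IsPrime → P.height = 1 → ∀ x : K, InLoc P x → InLoc P (D x)) (x : K)
    (hx : ∃ a : A, algebraMap A K a = x) : ∃ a : A, algebraMap A K a = D x := by
  obtain ⟨a, rfl⟩ := hx
  refine mem_of_height_one _ fun P hP h1 => h P hP h1 _ ?_
  exact inLoc_algebraMap P hP.ne_top a

end Pool.Agent.TG51
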