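import Pool.Agent.Lib.TG_h51.KrullV

/-!
# Primes of height one and transcendence degree of the residue field
-/

namespace Pool.Agent.TG51

open Ideal MvPolynomial

universe u v w

/-- The residues of the `t i` modulo `P` are algebraically independent over `k`. -/
def IndMod (k : Type w) {A : Type u} [Field k] [CommRing A] [Algebra k A] {ι : Type*}
    (P : Ideal A) (t : ι → A) : Prop :=
  ∀ f : MvPolynomial ι k, aeval t f ∈ P → f = 0

section Basic

variable {k : Type w} {A : Type u} [Field k] [CommRing A] [Algebra k A]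

theorem indMod_iff {ι : Type*} (P : Ideal A) (t : ι → A) :
    IndMod k P t ↔ AlgebraicIndependent k (fun i => Ideal.Quotient.mk P (t i)) := by
  rw [algebraicIndependent_iff]
  have h : ∀ f : MvPolynomial ι k, aeval (fun i => Ideal.Quotient.mk P (t i)) f = 0 ↔
      aeval t f ∈ P := by
    intro f
    have h1 : aeval (fun i => Ideal.Quotient.mk P (t i)) f = Ideal.Quotient.mk P (aeval t f) := by
      have : (aeval (fun i => Ideal.Quotient.mk P (t i)) : MvPolynomial ι k →ₐ[k] A ⧸ P) =
          (Ideal.Quotient.mkₐ k P).comp (aeval t) := by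
        ext i
        simp
      rw [this]
      rfl
    rw [h1, Ideal.Quotient.eq_zero_iff_mem]
  constructor
  · intro H f hf
    exact H f ((h f).1 hf)
  · intro H f hf
    exact H f ((h f).2 hf)

theorem indMod_bot {ι : Type*} (t : ι → A) : IndMod k (⊥ : Ideal A) t ↔ AlgebraicIndependent k t := by
  rw [algebraicIndependent_iff]
  exact Iff.rfl

theorem IndMod.mono {ι : Type*} {P Q : Ideal A} (h : Q ≤ P) {t : ι → A} (ht : IndMod k P t) :
    IndMod k Q t := fun f hf => ht f (h hf)

/-- The basic step: below `P` one more independent element. -/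
theorem IndMod.option {ι : Type*} {P Q : Ideal A} [hQ : Q.IsPrime] (hle : Q ≤ P) {t : ι → A}
    (ht : IndMod k P t) {a : A} (haP : a ∈ P) (haQ : a ∉ Q) :
    IndMod k Q (fun o : Option ι => o.elim a t) := by
  classical
  rw [indMod_iff]
  have e : (fun o : Option ι => Ideal.Quotient.mk Q (o.elim a t)) =
      fun o : Option ι => o.elim (Ideal.Quotient.mk Q a) (fun i => Ideal.Quotient.mk Q (t i)) := by
    funext o
    cases o <;> rfl
  rw [e]
  have ht' : AlgebraicIndependent k (fun i => Ideal.Quotient.mk Q (t i)) :=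
    (indMod_iff Q t).1 (ht.mono hle)
  rw [ht'.option_iff_transcendental]
  intro halg
  obtain ⟨q, hq0, hq⟩ := IsAlgebraic.exists_nonzero_coeff_and_aeval_eq_zero halg
    (mem_nonZeroDivisors_of_ne_zero (fun h0 => haQ (Ideal.Quotient.eq_zero_iff_mem.1 h0)))
  -- the constant coefficient is a polynomial in the `t i`
  have hc : ((q.coeff 0 : Algebra.adjoin k (Set.range fun i => Ideal.Quotient.mk Q (t i))) : A ⧸ Q) ∈
      Algebra.adjoin k (Set.range fun i => Ideal.Quotient.mk Q (t i)) := (q.coeff 0).2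
  have hc2 : ∀ z ∈ Algebra.adjoin k (Set.range fun i => Ideal.Quotient.mk Q (t i)),
      ∃ f : MvPolynomial ι k,
        (aeval (fun i => Ideal.Quotient.mk Q (t i)) : MvPolynomial ι k →ₐ[k] A ⧸ Q) f = z := by
    intro z hz
    rw [Algebra.adjoin_range_eq_range_aeval] at hz
    exact hz
  obtain ⟨f, hf⟩ := hc2 _ hc
  have hmk : (aeval (fun i => Ideal.Quotient.mk Q (t i)) : MvPolynomial ι k →ₐ[k] A ⧸ Q) f =
      Ideal.Quotient.mk Q (aeval t f) := by
    have : (aeval (fun i => Ideal.Quotient.mk Q (t i)) : MvPolynomial ι k →ₐ[k] A ⧸ Q) =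
        (Ideal.Quotient.mkₐ k Q).comp (aeval t) := by
      ext i
      simp
    rw [this]
    rfl
  -- it is divisible by `a`
  have hdiv : ∃ z : A ⧸ Q, Ideal.Quotient.mk Q (aeval t f) = Ideal.Quotient.mk Q a * z := by
    have h1 : Polynomial.aeval (Ideal.Quotient.mk Q a) q = 0 := hq
    rw [← Polynomial.divX_mul_X_add q, map_add, map_mul, Polynomial.aeval_X, Polynomial.aeval_C]
      at h1
    refine ⟨-(Polynomial.aeval (Ideal.Quotient.mk Q a) q.divX), ?_⟩
    have h2 : (algebraMap (Algebra.adjoin k (Set.range fun i => Ideal.Quotient.mk Q (t i)))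
        (A ⧸ Q)) (q.coeff 0) = Ideal.Quotient.mk Q (aeval t f) := by
      rw [← hmk]; exact hf.symm
    rw [h2] at h1
    linear_combination h1
  obtain ⟨z, hz⟩ := hdiv
  obtain ⟨z, rfl⟩ := Ideal.Quotient.mk_surjective z
  rw [← map_mul, Ideal.Quotient.mk_eq_mk_iff_sub_mem] at hz
  have hfP : aeval t f ∈ P := by
    have h3 : aeval t f = (aeval t f - a * z) + a * z := by ring
    rw [h3]
    exact P.add_mem (hle hz) (P.mul_mem_right _ haP)
  have hf0 : f = 0 := ht f hfP
  apply hq0
  apply Subtype.ext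
  have h4 : ((q.coeff 0 : Algebra.adjoin k (Set.range fun i => Ideal.Quotient.mk Q (t i))) :
      A ⧸ Q) = 0 := by
    have h5 := hf
    rw [hf0] at h5
    rw [← h5]
    exact map_zero _
  exact h4

theorem AlgebraicIndependent.card_le' {K : Type v} [CommRing K] [Algebra k K] [IsDomain K]
    {ι : Type v} [Fintype ι] {t : ι → K} (ht : AlgebraicIndependent k t) {n : ℕ}
    (hn : Algebra.trdeg k K ≤ n) : Fintype.card ι ≤ n := by
  have h1 := ht.cardinalMk_le_trdeg
  have h2 := h1.trans hn
  rw [Cardinal.mk_fintype] at h2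
  exact_mod_cast h2

end Basic

section Dim

variable {k : Type w} {A : Type u} [Field k] [CommRing A] [Algebra k A] [IsDomain A]

/-- `m` residues modulo a nonzero prime: `m + 1` independent elements of `A`. -/
theorem IndMod.card_lt {m : ℕ} {P : Ideal A} (hP : P ≠ ⊥) {t : Fin m → A} (ht : IndMod k P t)
    {n : ℕ} (hn : Algebra.trdeg k A ≤ n) : m + 1 ≤ n := by
  classical
  obtain ⟨a, ha, ha0⟩ := (Submodule.ne_bot_iff _).1 hP
  have h1 := ht.option (Q := ⊥) bot_le ha (by simpa using ha0)
  rw [indMod_bot] at h1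
  have h2 := h1.lift_cardinalMk_le_trdeg
  have h3 : Cardinal.lift.{0} (Algebra.trdeg k A) ≤ Cardinal.lift.{0} (n : Cardinal) :=
    Cardinal.lift_le.2 hn
  have h4 := h2.trans h3
  simp only [Cardinal.mk_fintype, Fintype.card_option, Fintype.card_fin, Cardinal.lift_natCast] at h4
  exact_mod_cast h4

/-- (K5) A nonzero prime with `n - 1` independent residues has height one. -/
theorem height_one_of_indMod {m n : ℕ} {P : Ideal A} [P.IsPrime] (hP : P ≠ ⊥) {t : Fin m → A}
    (ht : IndMod k P t) (hn : Algebra.trdeg k A ≤ n) (hmn : n ≤ m + 1) : P.height = 1 := by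
  classical
  refine height_eq_one_of_forall hP ?_
  intro Q hQ hlt
  by_contra hQ0
  obtain ⟨a, haP, haQ⟩ := SetLike.exists_of_lt hlt
  obtain ⟨b, hb, hb0⟩ := (Submodule.ne_bot_iff _).1 hQ0
  have h1 := ht.option (Q := Q) hlt.le haP haQ
  have h2 := h1.option (Q := ⊥) bot_le hb (by simpa using hb0)
  rw [indMod_bot] at h2
  have h3 := h2.lift_cardinalMk_le_trdeg
  have h4 : Cardinal.lift.{0} (Algebra.trdeg k A) ≤ Cardinal.lift.{0} (n : Cardinal) :=
    Cardinal.lift_le.2 hn
  have h5 := h3.trans h4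
  simp only [Cardinal.mk_fintype, Fintype.card_option, Fintype.card_fin, Cardinal.lift_natCast] at h5
  have h6 : m + 1 + 1 ≤ n := by exact_mod_cast h5
  omega

end Dim

end Pool.Agent.TG51
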