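import Pool.Agent.Lib.TG_h51.Trd

/-!
# Primes of height one of algebras of finite type

A prime of height one of a domain `A` of finite type over a field `k` has `trdeg A - 1`
algebraically independent residues (Noether normalisation and going down).
-/

namespace Pool.Agent.TG51

open Ideal MvPolynomial

universe u v w

/-- The polynomial ring: an irreducible hypersurface has `s - 1` independent residues. -/
theorem exists_indMod_mv {k : Type w} [Field k] {s : ℕ} (P : Ideal (MvPolynomial (Fin s) k))
    [P.IsPrime] (h : P.height = 1) :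
    ∃ i : Fin s, IndMod k P (fun j : {j : Fin s // j ≠ i} => (X j.1 : MvPolynomial (Fin s) k)) := by
  classical
  obtain ⟨x, hxP, hx⟩ := Ideal.IsPrime.exists_mem_prime_of_ne_bot (I := P) inferInstance
    (Ideal.ne_bot_of_height_eq_one h)
  have hPx : P = Ideal.span {x} := Ideal.eq_span_singleton_of_height_eq_one h hxP hx
  -- `x` is not constant
  have hdeg : ∃ i, x.degreeOf i ≠ 0 := by
    by_contra hcon
    push Not at hcon
    have h1 : x.totalDegree = 0 := by
      rw [totalDegree_eq_zero_iff]
      intro m hm i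
      have := (degreeOf_le_iff (n := i) (f := x) (d := 0)).1 (hcon i).le m hm
      exact Nat.le_zero.1 this
    rw [totalDegree_eq_zero_iff_eq_C] at h1
    have h2 : x.coeff 0 ≠ 0 := by
      intro h0
      apply hx.ne_zero
      rw [h1, h0, map_zero]
    apply hx.not_isUnit
    rw [h1]
    exact (IsUnit.mk0 _ h2).map C
  obtain ⟨i, hi⟩ := hdeg
  refine ⟨i, ?_⟩
  intro f hf
  by_contra hf0
  have e : aeval (fun j : {j : Fin s // j ≠ i} => (X j.1 : MvPolynomial (Fin s) k)) f =
      rename (Subtype.val : {j : Fin s // j ≠ i} → Fin s) f := by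
    rw [rename_eq_aeval]
    rfl
  rw [e, hPx, Ideal.mem_span_singleton] at hf
  obtain ⟨g, hg⟩ := hf
  have hr0 : rename (Subtype.val : {j : Fin s // j ≠ i} → Fin s) f ≠ 0 := by
    intro h0
    exact hf0 (rename_injective _ Subtype.val_injective (by rw [h0, map_zero]))
  have hg0 : g ≠ 0 := by
    rintro rfl
    rw [mul_zero] at hg
    exact hr0 hg
  have h1 : (rename (Subtype.val : {j : Fin s // j ≠ i} → Fin s) f).degreeOf i = 0 := by
    rw [← Nat.le_zero, degreeOf_le_iff]
    intro m hm
    apply le_of_eq
    obtain ⟨u, hu, -⟩ := coeff_rename_ne_zero _ _ _ (mem_support_iff.1 hm)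
    rw [← hu]
    rw [Finsupp.mapDomain_of_notMem_range]
    rintro ⟨j, hj⟩
    exact j.2 hj
  rw [hg, degreeOf_mul_eq hx.ne_zero hg0] at h1
  omega

/-- (K5) Finite type: a prime of height one has `n - 1` independent residues, where `n ≤ trdeg`. -/
theorem exists_indMod {k : Type w} {A : Type u} [Field k] [CommRing A] [IsDomain A] [Algebra k A]
    [Algebra.FiniteType k A] (P : Ideal A) [P.IsPrime] (h : P.height = 1) (m : ℕ)
    (hm : ((m + 1 : ℕ) : Cardinal.{u}) ≤ Algebra.trdeg k A) :
    ∃ t : Fin m → A, IndMod k P t := by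
  classical
  obtain ⟨s, g, hg, hfin⟩ := exists_finite_inj_algHom_of_fg k A
  let _ : Algebra (MvPolynomial (Fin s) k) A := g.toRingHom.toAlgebra
  have hmap : ∀ b, algebraMap (MvPolynomial (Fin s) k) A b = g b := fun b => rfl
  have hint : Algebra.IsIntegral (MvPolynomial (Fin s) k) A := by
    have : Module.Finite (MvPolynomial (Fin s) k) A := hfin
    infer_instance
  have hnoeth : IsNoetherianRing A := Algebra.FiniteType.isNoetherianRing k A
  have hfaith : FaithfulSMul (MvPolynomial (Fin s) k) A :=
    (faithfulSMul_iff_algebraMap_injective _ _).2 hg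
  have htower : IsScalarTower k (MvPolynomial (Fin s) k) A :=
    IsScalarTower.of_algebraMap_eq fun c => by
      rw [hmap]; exact (g.commutes c).symm
  -- the transcendence degree is `s`
  have hs : m + 1 ≤ s := by
    have h1 := _root_.lift_trdeg_add_eq k (MvPolynomial (Fin s) k) A
    have h2 : Algebra.trdeg (MvPolynomial (Fin s) k) A = 0 := by
      have : Algebra.IsAlgebraic (MvPolynomial (Fin s) k) A := inferInstance
      exact _root_.trdeg_eq_zero
    rw [h2, Cardinal.lift_zero, add_zero, MvPolynomial.trdeg_of_isDomain] at h1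
    have h3 : Cardinal.lift.{w} ((m + 1 : ℕ) : Cardinal.{u}) ≤
        Cardinal.lift.{w} (Algebra.trdeg k A) := Cardinal.lift_le.2 hm
    rw [← h1] at h3
    simp only [Cardinal.lift_natCast, Cardinal.mk_fintype, Fintype.card_fin] at h3
    exact_mod_cast h3
  let p : Ideal (MvPolynomial (Fin s) k) := P.comap (algebraMap (MvPolynomial (Fin s) k) A)
  have hp : p.IsPrime := Ideal.IsPrime.comap _
  have hlies : P.LiesOver p := ⟨rfl⟩
  have hle : p.height ≤ P.height := by
    rw [Ideal.height_eq_height_add_of_liesOver_of_hasGoingDown p P]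
    exact le_self_add
  have hpne : p ≠ ⊥ := by
    intro h0
    exact Ideal.ne_bot_of_height_eq_one h (Ideal.eq_bot_of_comap_eq_bot h0)
  have hp1 : p.height = 1 := by
    refine le_antisymm (h ▸ hle) ?_
    rw [Order.one_le_iff_ne_zero, Ne, Ideal.height_eq_zero_iff_eq_bot]
    exact hpne
  obtain ⟨i, hi⟩ := exists_indMod_mv p hp1
  have hcard : Fintype.card {j : Fin s // j ≠ i} = s - 1 := by
    rw [Fintype.card_subtype_compl, Fintype.card_fin, Fintype.card_subtype_eq]
  have hemb : ∃ e : Fin m → {j : Fin s // j ≠ i}, Function.Injective e := by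
    have : Fintype.card (Fin m) ≤ Fintype.card {j : Fin s // j ≠ i} := by
      rw [hcard, Fintype.card_fin]; omega
    obtain ⟨e⟩ := Function.Embedding.nonempty_of_card_le this
    exact ⟨e, e.injective⟩
  obtain ⟨e, he⟩ := hemb
  refine ⟨fun l => g (X (e l).1), ?_⟩
  intro f hf
  have e1 : aeval (fun l => g (X (e l).1)) f =
      g (aeval (fun j : {j : Fin s // j ≠ i} => (X j.1 : MvPolynomial (Fin s) k)) (rename e f)) := by
    have : (aeval (fun l => g (X (e l).1)) : MvPolynomial (Fin m) k →ₐ[k] A) =
        (g.comp (aeval (fun j : {j : Fin s // j ≠ i} => (X j.1 : MvPolynomial (Fin s) k)))).comp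
          (rename e) := by
      ext l
      simp
    rw [this]
    rfl
  rw [e1] at hf
  have h2 := hi _ hf
  exact rename_injective e he (by rw [h2, map_zero])

end Pool.Agent.TG51
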